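import Pool.Agent.helper82.SC.SpecA

/-! # sp: Cardy part, module CN (continuity, assembly) -/

namespace Pool.Agent.helper82.SC

open Relation

theorem CN_split (hF : FC_stmt) (D : Dom) (z : Dart) (hz : D.FU z.1) (j : Fin 3) (B : Set F) :
    D.P j z = My D z j B + Mn D z j B := by
  have hfin := (hF D z hz).1
  unfold Dom.P My Mn
  rw [← add_div, ← Nat.cast_add]
  congr 2
  have f1 : {ψ | ψ ∈ D.Conf z ∧ D.Jn ψ z j ∧
      ∃ x : Dart, x.1 ∈ B ∧ D.Cn ψ (star (D.a (j + 1))) x}.Finite := hfin.subset fun ψ hψ => hψ.1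
  have f2 : {ψ | ψ ∈ D.Conf z ∧ D.Jn ψ z j ∧
      ¬ ∃ x : Dart, x.1 ∈ B ∧ D.Cn ψ (star (D.a (j + 1))) x}.Finite := hfin.subset fun ψ hψ => hψ.1
  rw [← Set.ncard_union_eq ?_ f1 f2]
  · congr 1
    ext ψ
    simp only [Set.mem_ofPred_eq, Set.mem_union]
    constructor
    · rintro ⟨h1, h2⟩
      by_cases h : ∃ x : Dart, x.1 ∈ B ∧ D.Cn ψ (star (D.a (j + 1))) x
      · exact Or.inl ⟨h1, h2, h⟩
      · exact Or.inr ⟨h1, h2, h⟩
    · rintro (⟨h1, h2, -⟩ | ⟨h1, h2, -⟩) <;> exact ⟨h1, h2⟩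
  · rw [Set.disjoint_left]
    rintro ψ ⟨-, -, h⟩ ⟨-, -, h'⟩
    exact h' h

theorem CN_Mn_star (hS : SY_stmt) (D : Dom) (z : Dart) (j : Fin 3) (B : Set F) :
    Mn D (star z) j B = Mn D z j B := by
  obtain ⟨h1, h2, -⟩ := hS D z
  unfold Mn
  congr 3
  ext ψ
  simp only [Set.mem_ofPred_eq]
  rw [h1]
  constructor
  · rintro ⟨a1, a2, a3⟩
    refine ⟨a1, ?_, a3⟩
    unfold Dom.Jn at a2 ⊢
    rwa [h2 ψ a1] at a2
  · rintro ⟨a1, a2, a3⟩
    refine ⟨a1, ?_, a3⟩
    unfold Dom.Jn at a2 ⊢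
    rwa [h2 ψ a1]

/-- CN -/
theorem CN (hF : FC_stmt) (hS : SY_stmt) (hC : CT1_stmt) (hB : BCN_stmt) (hE : EXI_stmt) :
    CN_stmt := by
  intro D π z z' j hπ hcon hz hz'
  set B : Set F := {f | D.Bf π f} with hBd
  have hBF : ∀ f ∈ B, D.FU f := fun f hf => hf.1
  -- at one face
  have hface : ∀ f ∈ B, ∀ d e : Fin 3, Mn D (f, d) j B = Mn D (f, e) j B := fun f hf d e =>
    le_antisymm (hC D B f d e j hf (hBF f hf)) (hC D B f e d j hf (hBF f hf))
  -- along the connection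
  have hMn : ∀ f g : F, D.Bf π f → D.Bf π g → ∀ d e : Fin 3, Mn D (f, d) j B = Mn D (g, e) j B := by
    intro f g hf hg
    have h := hB D π hπ hcon f g hf hg
    induction h with
    | refl => exact fun d e => hface f hf d e
    | @tail g1 g2 _ hstep ih =>
      intro d e
      obtain ⟨⟨d', hd'⟩, h2⟩ := hstep
      by_cases hg1 : D.Bf π g1
      · rw [ih hg1 d d']
        have h3 := CN_Mn_star hS D (g1, d') j B
        have h4 : star (g1, d') = (g2, d') := by rw [hd']; rfl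
        rw [h4] at h3
        rw [← h3]
        exact hface g2 h2 d' e
      · exfalso
        rename_i hpath
        apply hg1
        cases hpath with
        | refl => exact hf
        | tail _ h5 => exact h5.2
  have e1 := CN_split hF D z hz.1 j B
  have e2 := CN_split hF D z' hz'.1 j B
  have e3 : Mn D z j B = Mn D z' j B := hMn z.1 z'.1 hz hz' z.2 z'.2
  have hle : ∀ y : Dart, D.FU y.1 → My D y j B ≤ D.Mx j π := by
    intro y hy
    by_cases hne : ∃ m, D.FU (D.a m).1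
    · refine (hE D y j B hy hBF).trans ?_
      unfold My Dom.Mx
      have hfa : D.FU (D.a j).1 := ⟨(D.a j).2 + 2, D.third j⟩
      have hfin := (hF D (D.a j) hfa).1
      refine div_le_div_of_nonneg_right ?_ (by positivity)
      have := Set.ncard_le_ncard (s := {ψ | ψ ∈ D.Conf (D.a j) ∧ D.Jn ψ (D.a j) j ∧
        ∃ x : Dart, x.1 ∈ B ∧ D.Cn ψ (star (D.a (j + 1))) x})
        (t := {ψ | ψ ∈ D.Conf (D.a j) ∧ ∃ x : Dart, D.Bf π x.1 ∧ D.Cn ψ (star (D.a (j + 1))) x})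
        (by
          rintro ψ ⟨h1, -, h3⟩
          exact ⟨h1, h3⟩) (hfin.subset fun ψ hψ => hψ.1)
      exact_mod_cast this
    · exact absurd ⟨j, ⟨(D.a j).2 + 2, D.third j⟩⟩ hne
  have hpos : ∀ y : Dart, 0 ≤ My D y j B := fun y => by unfold My; positivity
  rw [e1, e2, e3, abs_le]
  have a1 := hle z hz.1
  have a2 := hle z' hz'.1
  have a3 := hpos z
  have a4 := hpos z'
  constructor <;> linarith

end Pool.Agent.helper82.SC
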