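import Pool.Agent.helper82.SC.SpecA

/-! # sp: Cardy part, module ZDW (white crossing) -/

namespace Pool.Agent.helper82.SC

open Relation

theorem ZDW_zmod (a b : ZMod 2) (h : a + b = 1) : a ≠ b := by
  revert a b; decide

theorem ZDW_zmod2 (k a b : ZMod 2) (h : a + b = 1) : a = k ∨ b = k := by
  revert a b k; decide

theorem ZDW_fin1 (j : Fin 3) : j + 1 ≠ j := by revert j; decide

theorem ZDW_fin3 (g d : Fin 3) : g = d ∨ g = d + 1 ∨ g = d + 2 := by revert g d; decide

/-- `u` is an end of the side of `x` -/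
def ZDW_End (x : Dart) (u : V) : Prop := u = S x.1 x.2 ∨ u = S x.1 (x.2 + 1)

theorem ZDW_end_star (x : Dart) (u : V) : ZDW_End (star x) u ↔ ZDW_End x u := by
  unfold ZDW_End star
  simp only [S_tw, S_tw']
  exact or_comm

/-- step of colour `k` inside a face of the domain -/
def ZDW_St (D : Dom) (c : V → ZMod 2) (k : ZMod 2) (a b : V) : Prop :=
  ∃ f d e, D.FU f ∧ S f d = a ∧ S f e = b ∧ c a = k ∧ c b = k

theorem ZDW_sum_star (c : V → ZMod 2) (x : Dart) :
    c (S (star x).1 (star x).2) + c (S (star x).1 ((star x).2 + 1)) =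
      c (S x.1 x.2) + c (S x.1 (x.2 + 1)) := by
  unfold star
  simp only [S_tw, S_tw']
  exact add_comm _ _

/-- Both sides of a wall, with steps inside the faces of the domain. -/
theorem ZDW_wall (D : Dom) (ψ : Dart → ZMod 2) (c : V → ZMod 2) (k : ZMod 2)
    (hψ : ∀ x : Dart, D.FU x.1 → ψ x = c (S x.1 x.2) + c (S x.1 (x.2 + 1))) (x y : Dart)
    (hx : c (S x.1 x.2) + c (S x.1 (x.2 + 1)) = 1) (h : D.Cn ψ x y) :
    c (S y.1 y.2) + c (S y.1 (y.2 + 1)) = 1 ∧
    ∀ u v, ZDW_End x u → ZDW_End y v → c u = k → c v = k → ReflTransGen (ZDW_St D c k) u v := by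
  have huniq : ∀ z : Dart, c (S z.1 z.2) + c (S z.1 (z.2 + 1)) = 1 → ∀ u v, ZDW_End z u →
      ZDW_End z v → c u = k → c v = k → u = v := by
    intro z hz u v hu hv h1 h2
    have hne := ZDW_zmod _ _ hz
    rcases hu with rfl | rfl <;> rcases hv with rfl | rfl
    · rfl
    · exact absurd (h1.trans h2.symm) hne
    · exact absurd (h2.trans h1.symm) hne
    · rfl
  induction h with
  | refl =>
    refine ⟨hx, fun u v hu hv h1 h2 => ?_⟩
    rw [huniq x hx u v hu hv h1 h2]
  | @tail y z _ hlink ih =>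
    obtain ⟨ihy, ihp⟩ := ih
    obtain ⟨hy1, hz1, hcase⟩ := hlink
    -- the colour `k` end of `y`
    obtain ⟨t, ht, hct⟩ : ∃ t, ZDW_End y t ∧ c t = k := by
      rcases ZDW_zmod2 k _ _ ihy with h1 | h1
      · exact ⟨_, Or.inl rfl, h1⟩
      · exact ⟨_, Or.inr rfl, h1⟩
    rcases hcase with ⟨hF, hface, -⟩ | ⟨-, hstar⟩
    · have hFz : D.FU z.1 := by rw [← hface]; exact hF
      have hz : c (S z.1 z.2) + c (S z.1 (z.2 + 1)) = 1 := by rw [← hψ z hFz, hz1]
      refine ⟨hz, fun u v hu hv h1 h2 => ?_⟩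
      refine (ihp u t hu ht h1 hct).tail ?_
      obtain ⟨d, hd⟩ : ∃ d, S y.1 d = t := by
        rcases ht with h3 | h3
        · exact ⟨_, h3.symm⟩
        · exact ⟨_, h3.symm⟩
      obtain ⟨e, he⟩ : ∃ e, S y.1 e = v := by
        rcases hv with h3 | h3
        · exact ⟨_, by rw [hface]; exact h3.symm⟩
        · exact ⟨_, by rw [hface]; exact h3.symm⟩
      exact ⟨y.1, d, e, hF, hd, he, hct, h2⟩
    · subst hstar
      refine ⟨by rw [ZDW_sum_star]; exact ihy, fun u v hu hv h1 h2 => ?_⟩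
      exact ihp u v hu ((ZDW_end_star y v).1 hv) h1 h2

/-- The extraction of the crossing. -/
theorem ZDW_extract (D : Dom) (j : Fin 3) (p : Dart) (part : V → ZMod 2) (hp : Part D j p part)
    (s : Finset V) (hs : s ⊆ D.U) (u v : V) (hu : u ∉ D.U) (hus : D.sec u = j) (hup : part u = 1)
    (hv : v ∉ D.U) (hvs : D.sec v = j + 1)
    (h : ReflTransGen (ZDW_St D (cx D (beta4 D j part) s) 1) u v) : XW D j part s := by
  have hj1 : j + 1 ≠ j := ZDW_fin1 j
  have hpart0 : part (S (D.a (j + 2)).1 (D.a (j + 2)).2) = 0 := hp.2.2.2.2.2.2.2.2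
  -- classification of white sites
  have hcl : ∀ b, cx D (beta4 D j part) s b = 1 → (b ∈ s) ∨ (b ∉ D.U ∧ D.sec b = j ∧ part b = 1) ∨
      (b ∉ D.U ∧ D.sec b = j + 1) := by
    intro b hb
    unfold cx at hb
    by_cases hbU : b ∈ D.U
    · rw [if_pos hbU] at hb
      by_cases hbs : b ∈ s
      · exact Or.inl hbs
      · rw [if_neg hbs] at hb
        exact absurd hb (by decide)
    · rw [if_neg hbU] at hb
      unfold beta4 at hb
      by_cases h1 : D.sec b = j
      · rw [if_pos h1] at hb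
        exact Or.inr (Or.inl ⟨hbU, h1, hb⟩)
      · rw [if_neg h1] at hb
        by_cases h2 : D.sec b = j + 1
        · exact Or.inr (Or.inr ⟨hbU, h2⟩)
        · rw [if_neg h2] at hb
          exact absurd hb (by decide)
  -- no step from A to C
  have hAC : ∀ (f : F) (d e : Fin 3), D.FU f → S f d ∉ D.U → S f e ∉ D.U → D.sec (S f d) = j →
      part (S f d) = 1 → D.sec (S f e) = j + 1 → False := by
    intro f d e hF hd he hsd hpd hse
    have hde : d ≠ e := by
      rintro rfl
      exact hj1 (hse.symm.trans hsd)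
    have h3 : e = d + 1 ∨ d = e + 1 := by
      revert hde; clear * -; revert d e; decide
    obtain ⟨g, hg⟩ := hF
    rcases h3 with rfl | rfl
    · have hg' : g = d + 2 := by
        rcases ZDW_fin3 g d with h4 | h4 | h4
        · rw [h4] at hg; exact absurd hg hd
        · rw [h4] at hg; exact absurd hg he
        · exact h4
      rw [hg'] at hg
      obtain ⟨m, hm⟩ := D.only f d hg hd he (by rw [hsd, hse]; exact hj1.symm)
      have h5 := D.sec_first m
      rw [← hm] at h5
      have h6 : m = j + 2 := by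
        have h7 : m + 1 = j := h5.symm.trans hsd
        rw [← h7]
        clear * -
        revert m; decide
      rw [h6] at hm
      rw [← hm] at hpart0
      simp only at hpart0
      rw [hpart0] at hpd
      exact absurd hpd (by decide)
    · have hg' : g = e + 2 := by
        rcases ZDW_fin3 g e with h4 | h4 | h4
        · rw [h4] at hg; exact absurd hg he
        · rw [h4] at hg; exact absurd hg hd
        · exact h4
      rw [hg'] at hg
      obtain ⟨m, hm⟩ := D.only f e hg he hd (by rw [hsd, hse]; exact hj1)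
      have h5 := D.sec_first m
      have h6 := D.sec_second m
      rw [← hm] at h5 h6
      have h7 : m + 1 = j + 1 := h5.symm.trans hse
      have h8 : m + 2 = j := h6.symm.trans hsd
      rw [← h8] at h7
      revert h7
      clear * -
      revert m; decide
  have hQ : (v ∉ D.U ∧ D.sec v = j ∧ part v = 1) ∨ (v ∈ s ∧ ∃ u', Con (s : Set V) u' v ∧
      ∃ w, w ∉ D.U ∧ TAdj u' w ∧ D.sec w = j ∧ part w = 1) ∨ XW D j part s := by
    clear hv hvs
    induction h with
    | refl => exact Or.inl ⟨hu, hus, hup⟩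
    | @tail b b' _ hstep ih =>
      obtain ⟨f, d, e, hF, hd, he, hcb, hcb'⟩ := hstep
      rcases eq_or_ne b b' with rfl | hne
      · exact ih
      have hde : d ≠ e := by
        rintro rfl
        exact hne (hd.symm.trans he)
      have hadj : TAdj b b' := by
        rw [← hd, ← he]
        exact TAdj_S f d e hde
      rcases ih with ⟨hb1, hb2, hb3⟩ | ⟨hb1, u', hu1, hu2⟩ | ih
      · rcases hcl b' hcb' with h1 | h1 | h1
        · refine Or.inr (Or.inl ⟨h1, b', ⟨h1, ReflTransGen.refl⟩, b, hb1, hadj.symm, hb2, hb3⟩)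
        · exact Or.inl h1
        · exfalso
          subst hd he
          exact hAC f d e hF hb1 h1.1 hb2 hb3 h1.2
      · rcases hcl b' hcb' with h1 | h1 | h1
        · refine Or.inr (Or.inl ⟨h1, u', ⟨hu1.1, hu1.2.tail ⟨hadj, h1⟩⟩, hu2⟩)
        · exact Or.inl h1
        · refine Or.inr (Or.inr ⟨u', b, hu1, hu2, b', h1.1, hadj, h1.2⟩)
      · exact Or.inr (Or.inr ih)
  rcases hQ with ⟨-, h1, -⟩ | ⟨h1, -⟩ | h1
  · exact absurd (hvs.symm.trans h1) hj1
  · exact absurd (hs h1) hv
  · exact h1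

/-- ZDW -/
theorem ZDW (hB4 : B4_stmt) (hCA : CA_stmt) : ZDW_stmt := by
  intro D j p part hp
  have hbd := hB4 D j p part hp
  have hbij := hCA D (beta4 D j part) p hbd
  obtain ⟨hpF, hp1, hp2, hp3, hp4, hp5, hp6, hp7, hp8⟩ := id hp
  have hj1 : j + 1 ≠ j := ZDW_fin1 j
  have hsub : {ψ | ψ ∈ D.Conf p ∧ D.Jn ψ p (j + 2)} ⊆
      psix D (beta4 D j part) '' {s : Finset V | s ⊆ D.U ∧ XW D j part s} := by
    rintro ψ ⟨hψ, hJ⟩
    obtain ⟨s, hs, rfl⟩ := hbij.surjOn hψ
    refine ⟨s, ⟨hs, ?_⟩, rfl⟩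
    have hc : ∀ x : Dart, D.FU x.1 → psix D (beta4 D j part) s x =
        cx D (beta4 D j part) s (S x.1 x.2) + cx D (beta4 D j part) s (S x.1 (x.2 + 1)) := by
      intro x hx
      unfold psix
      rw [if_pos hx]
    have c1 : cx D (beta4 D j part) s (S p.1 p.2) = part (S p.1 p.2) := by
      unfold cx beta4
      rw [if_neg hp1, if_pos hp3]
    have c2 : cx D (beta4 D j part) s (S p.1 (p.2 + 1)) = part (S p.1 (p.2 + 1)) := by
      unfold cx beta4
      rw [if_neg hp2, if_pos hp4]
    have hsum : cx D (beta4 D j part) s (S p.1 p.2) + cx D (beta4 D j part) s (S p.1 (p.2 + 1)) = 1 := by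
      rw [c1, c2, hp5 p hpF hp1 hp2 hp3 hp4, if_pos rfl]
    have hψp : psix D (beta4 D j part) s p = 1 := by rw [hc p hpF, hsum]
    have hzp : zp (psix D (beta4 D j part) s) p = p := by
      unfold zp
      rw [if_pos hψp]
    unfold Dom.Jn at hJ
    rw [hzp] at hJ
    have hw := (ZDW_wall D (psix D (beta4 D j part) s) (cx D (beta4 D j part) s) 1 hc p
      (star (D.a (j + 2))) hsum hJ).2 (S p.1 p.2) (S (D.a (j + 2)).1 ((D.a (j + 2)).2 + 1))
      (Or.inl rfl) ((ZDW_end_star _ _).2 (Or.inr rfl)) (c1.trans hp6) ?_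
    · refine ZDW_extract D j p part hp s hs _ _ hp1 hp3 hp6 (D.second (j + 2)) ?_ hw
      rw [D.sec_second]
      clear * -
      revert j; decide
    · have h5 : D.sec (S (D.a (j + 2)).1 ((D.a (j + 2)).2 + 1)) = j + 1 := by
        rw [D.sec_second]
        clear * -
        revert j; decide
      unfold cx beta4
      rw [if_neg (D.second (j + 2)), h5, if_neg hj1, if_pos rfl]
  have hfin : {s : Finset V | s ⊆ D.U ∧ XW D j part s}.Finite :=
    (D.U.powerset.finite_toSet).subset fun s hs => by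
      rw [Finset.mem_coe, Finset.mem_powerset]; exact hs.1
  have hcard : {ψ | ψ ∈ D.Conf p ∧ D.Jn ψ p (j + 2)}.ncard ≤
      {s : Finset V | s ⊆ D.U ∧ XW D j part s}.ncard :=
    (Set.ncard_le_ncard hsub (hfin.image _)).trans (Set.ncard_image_le hfin)
  unfold Dom.P prob
  refine div_le_div_of_nonneg_right ?_ (by positivity)
  exact_mod_cast hcard

end Pool.Agent.helper82.SC
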